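import Pool.Agent.Lib.MP_d99f1b_co.Sound
import Pool.Agent.Lib.MP_d99f1b_co.CheckPairs
import Pool.Agent.Lib.MP_d99f1b_co.CheckSearch

/-!
An optimal 3-plane graph (14 vertices, 66 edges) with no edge partition into a 2-plane graph
and a forest.
-/

open Set Topology Filter
open Pool.Agent.Lib.MP_d99f1b_co

namespace Pool.Agent.Results.MP_d99f1b_co.NoPartition

/-- A drawing in the plane `ℂ` of a loopless multigraph with vertex set `V` and edge set `E`:
vertices are distinct points, each edge is a Jordan arc joining its two ends and passing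
through no other vertex. -/
structure Drawing (V E : Type) where
  pos : V → ℂ
  src : E → V
  tgt : E → V
  arc : E → Set ℂ
  pos_inj : Function.Injective pos
  loopless : ∀ e, src e ≠ tgt e
  isArc : ∀ e, ∃ γ : Path (pos (src e)) (pos (tgt e)), Function.Injective γ ∧ range γ = arc e
  avoid : ∀ e v, pos v ∈ arc e → v = src e ∨ v = tgt e

/-- `A` and `B` cross properly at `p`: a homeomorphism of the plane sends `p` to `0` and, near
`p`, `A` to the real axis and `B` to the imaginary axis. -/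
def ProperCrossing (A B : Set ℂ) (p : ℂ) : Prop :=
  ∃ φ : ℂ ≃ₜ ℂ, φ p = 0 ∧ ∀ᶠ q in 𝓝 p, (q ∈ A ↔ (φ q).im = 0) ∧ (q ∈ B ↔ (φ q).re = 0)

variable {V E : Type}

/-- The unordered pair of ends of an edge. -/
def Drawing.ends (D : Drawing V E) (e : E) : Sym2 V := s(D.src e, D.tgt e)

/-- A simple drawing: if two distinct arcs share a point that is not a vertex, it is their only
common point and a proper crossing (so otherwise they share only common ends); and no three
arcs share a point that is not a vertex. -/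
def Drawing.IsSimple (D : Drawing V E) : Prop :=
  (∀ e f, e ≠ f → ∀ p ∈ D.arc e ∩ D.arc f, p ∉ range D.pos →
    D.arc e ∩ D.arc f = {p} ∧ ProperCrossing (D.arc e) (D.arc f) p) ∧
  ∀ e f g, e ≠ f → e ≠ g → f ≠ g → D.arc e ∩ D.arc f ∩ D.arc g ⊆ range D.pos

/-- No homotopic parallel edges: every region (connected component of the complement) bounded by
the closed curve formed by two parallel edges contains a vertex. -/
def Drawing.NoHomotopicParallel (D : Drawing V E) : Prop :=
  ∀ e f, e ≠ f → D.ends e = D.ends f → ∀ q ∉ D.arc e ∪ D.arc f,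
    ∃ v, D.pos v ∈ connectedComponentIn (D.arc e ∪ D.arc f)ᶜ q

/-- Two distinct edges cross if their arcs share a point that is not a vertex. -/
def Drawing.Crosses (D : Drawing V E) (e f : E) : Prop :=
  e ≠ f ∧ ∃ p ∈ D.arc e ∩ D.arc f, p ∉ range D.pos

/-- The sub-drawing on the edge set `S` is `k`-plane: each edge of `S` is crossed by at most `k`
edges of `S`. -/
def Drawing.KPlane (D : Drawing V E) (S : Set E) (k : ℕ) : Prop :=
  ∀ e ∈ S, {f | f ∈ S ∧ D.Crosses e f}.ncard ≤ k

/-- The edge set `S` is a forest: no two parallel edges, and the simple graph it spans has no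
cycle. -/
def Drawing.IsForest (D : Drawing V E) (S : Set E) : Prop :=
  InjOn D.ends S ∧ (SimpleGraph.fromEdgeSet (D.ends '' S)).IsAcyclic

theorem arc_ok (e : Fin 66) : arcOK (ed e) = true :=
  List.all_eq_true.mp arc_check e (List.mem_range.mpr e.2)

theorem pair_ok {e f : Fin 66} (h : e ≠ f) :
    (if (f : ℕ) ∈ (ed e).nb then crossOK (ed e) (ed f) else noCross (ed e) (ed f)) = true ∧
      (if ((ed e).u = (ed f).u ∧ (ed e).v = (ed f).v) ∨ ((ed e).u = (ed f).v ∧ (ed e).v = (ed f).u)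
        then parOK (ed e) (ed f) else true) = true := by
  have := List.all_eq_true.mp (List.all_eq_true.mp pair_check e (List.mem_range.mpr e.2)) f
    (List.mem_range.mpr f.2)
  simp only [pairOK, Bool.or_eq_true, decide_eq_true_eq, Bool.and_eq_true] at this
  rcases this with h' | h'
  · exact absurd (Fin.ext h') h
  · exact h'

theorem nb_ok (e : Fin 66) : (ed e).nb.length ≤ 3 ∧ (ed e).nb.Nodup ∧
    ∀ f ∈ (ed e).nb, f < 66 ∧ f ≠ e ∧ ∀ g ∈ (ed f).nb, g ∉ (ed e).nb := by
  have := List.all_eq_true.mp nb_check e (List.mem_range.mpr e.2)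
  simp only [Bool.and_eq_true, decide_eq_true_eq, List.all_eq_true] at this
  exact ⟨this.1.1, this.1.2, fun f hf => ⟨(this.2 f hf).1.1, (this.2 f hf).1.2, (this.2 f hf).2⟩⟩

/-- The drawing. -/
def D0 : Drawing (Fin 14) (Fin 66) where
  pos v := toC (pz v)
  src e := ⟨(ed e).u, (arcOK_sound (arc_ok e)).1⟩
  tgt e := ⟨(ed e).v, (arcOK_sound (arc_ok e)).2.1⟩
  arc e := arcSet (ed e)
  pos_inj u v h := by
    have := List.all_eq_true.mp (List.all_eq_true.mp pos_check u (List.mem_range.mpr u.2)) v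
      (List.mem_range.mpr v.2)
    simp only [Bool.or_eq_true, decide_eq_true_eq] at this
    rcases this with h' | h'
    · exact Fin.ext h'
    · exact absurd (toC_injective h) h'
  loopless e h := (arcOK_sound (arc_ok e)).2.2.1 (congrArg Fin.val h)
  isArc e := by
    obtain ⟨_, _, _, h0, h3, h, _⟩ := arcOK_sound (arc_ok e)
    rw [h0, h3] at h
    exact h
  avoid e v h := by
    rcases (arcOK_sound (arc_ok e)).2.2.2.2.2.2 v v.2 h with h' | h'
    · exact Or.inl (Fin.ext h')
    · exact Or.inr (Fin.ext h')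

theorem mem_range_of_noCross {e f : Fin 66} (h : noCross (ed e) (ed f) = true) {p : ℂ}
    (hp : p ∈ D0.arc e ∩ D0.arc f) : p ∈ range D0.pos := by
  obtain ⟨_, _, _, h0, h3, _⟩ := arcOK_sound (arc_ok e)
  rcases noCross_sound h hp.1 hp.2 with rfl | rfl
  · exact ⟨D0.src e, by rw [h0]; rfl⟩
  · exact ⟨D0.tgt e, by rw [h3]; rfl⟩

theorem crosses_iff (e f : Fin 66) : D0.Crosses e f ↔ (f : ℕ) ∈ (ed e).nb := by
  constructor
  · rintro ⟨hne, p, hp, hp'⟩
    by_contra h
    have := (pair_ok hne).1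
    rw [if_neg h] at this
    exact hp' (mem_range_of_noCross this hp)
  · intro h
    have hne : e ≠ f := fun h' => ((nb_ok e).2.2 f h).2.1 (by rw [h'])
    have := (pair_ok hne).1
    rw [if_pos h] at this
    obtain ⟨⟨n1, n2, n3, n4⟩, p, φ, _, hi, _⟩ := crossOK_sound this
    have hp : p ∈ D0.arc e ∩ D0.arc f := by
      change p ∈ arcSet (ed e) ∩ arcSet (ed f)
      rw [hi]; rfl
    refine ⟨hne, p, hp, ?_⟩
    rintro ⟨v, rfl⟩
    rcases D0.avoid e v hp.1 with h1 | h1 <;> rcases D0.avoid f v hp.2 with h2 | h2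
    · exact n1 (congrArg Fin.val (h1.symm.trans h2))
    · exact n2 (congrArg Fin.val (h1.symm.trans h2))
    · exact n3 (congrArg Fin.val (h1.symm.trans h2))
    · exact n4 (congrArg Fin.val (h1.symm.trans h2))

theorem isSimple : D0.IsSimple := by
  constructor
  · intro e f hne p hp hp'
    have h := (crosses_iff e f).mp ⟨hne, p, hp, hp'⟩
    have := (pair_ok hne).1
    rw [if_pos h] at this
    obtain ⟨_, p', φ, hφ, hi, hev⟩ := crossOK_sound this
    have : p = p' := by
      have h2 : p ∈ arcSet (ed e) ∩ arcSet (ed f) := hp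
      rwa [hi] at h2
    subst this
    exact ⟨hi, φ, hφ, hev⟩
  · intro e f g hef heg hfg p hp
    by_contra hp'
    have h1 := (crosses_iff e f).mp ⟨hef, p, hp.1, hp'⟩
    have h2 := (crosses_iff e g).mp ⟨heg, p, ⟨hp.1.1, hp.2⟩, hp'⟩
    have h3 := (crosses_iff f g).mp ⟨hfg, p, ⟨hp.1.2, hp.2⟩, hp'⟩
    exact ((nb_ok e).2.2 f h1).2.2 g h3 h2

theorem noHomotopic : D0.NoHomotopicParallel := by
  intro e f hne hends q hq
  have hc : ((ed e).u = (ed f).u ∧ (ed e).v = (ed f).v) ∨
      ((ed e).u = (ed f).v ∧ (ed e).v = (ed f).u) := by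
    rcases Sym2.eq_iff.mp hends with h | h
    · exact Or.inl ⟨congrArg Fin.val h.1, congrArg Fin.val h.2⟩
    · exact Or.inr ⟨congrArg Fin.val h.1, congrArg Fin.val h.2⟩
  obtain ⟨h1, h2⟩ := pair_ok hne
  rw [if_pos hc] at h2
  have hn : noCross (ed e) (ed f) = true := by
    split_ifs at h1 with h
    · obtain ⟨⟨n1, n2, _, _⟩, _⟩ := crossOK_sound h1
      rcases hc with h' | h'
      · exact absurd h'.1 n1
      · exact absurd h'.1 n2
    · exact h1
  obtain ⟨w, hw, h⟩ := parOK_sound (arc_ok e) (arc_ok f) hn h2 q hq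
  exact ⟨⟨w, hw⟩, h⟩

theorem threePlane : D0.KPlane univ 3 := by
  intro e _
  have hsub : Fin.val '' {f | f ∈ univ ∧ D0.Crosses e f} ⊆ ((ed e).nb.toFinset : Set ℕ) := by
    rintro _ ⟨f, hf, rfl⟩
    simpa using (crosses_iff e f).mp hf.2
  have := ncard_le_ncard hsub (Finset.finite_toSet _)
  rw [ncard_image_of_injective _ Fin.val_injective, ncard_coe_finset] at this
  exact this.trans ((List.toFinset_card_le _).trans (nb_ok e).1)

theorem exists_colouring {S : Set (Fin 66)} (hS : D0.IsForest S) {x : Fin 66} (hx : x ∈ S) :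
    ∃ c : Fin 14 → Prop, ¬ (c (D0.src x) ↔ c (D0.tgt x)) ∧
      ∀ y ∈ S, y ≠ x → (c (D0.src y) ↔ c (D0.tgt y)) := by
  set G := SimpleGraph.fromEdgeSet (D0.ends '' S) with hG
  have hadj : ∀ y ∈ S, G.Adj (D0.src y) (D0.tgt y) := fun y hy =>
    (SimpleGraph.fromEdgeSet_adj _).mpr ⟨⟨y, hy, rfl⟩, D0.loopless y⟩
  have hb := SimpleGraph.isAcyclic_iff_forall_adj_isBridge.mp hS.2 (hadj x hx)
  rw [SimpleGraph.isBridge_iff] at hb
  refine ⟨fun v => (G.deleteEdges {s(D0.src x, D0.tgt x)}).Reachable (D0.src x) v, ?_, ?_⟩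
  · intro h
    exact hb (h.mp (SimpleGraph.Reachable.refl _))
  · intro y hy hne
    have : (G.deleteEdges {s(D0.src x, D0.tgt x)}).Adj (D0.src y) (D0.tgt y) := by
      rw [SimpleGraph.deleteEdges_adj]
      exact ⟨hadj y hy, fun h => hne (hS.1 hy hx h)⟩
    exact ⟨fun h => h.trans this.reachable, fun h => h.trans this.symm.reachable⟩

theorem noPartition : ¬ ∃ S : Set (Fin 66), D0.KPlane Sᶜ 2 ∧ D0.IsForest S := by
  rintro ⟨S, h2, hF⟩
  refine go_sound (S := fun x => ∃ h : x < 66, (⟨x, h⟩ : Fin 66) ∈ S) ?_ clauses ?_ 0 0 _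
    (inv_init _) go_check
  · rintro x ⟨hx, hxS⟩
    obtain ⟨c, hc1, hc2⟩ := exists_colouring hF hxS
    have key : ∀ v : Fin 14, (∃ h : (v : ℕ) < 14, c ⟨v, h⟩) ↔ c v :=
      fun v => ⟨fun ⟨_, h⟩ => h, fun h => ⟨v.2, h⟩⟩
    refine ⟨fun v => ∃ h : v < 14, c ⟨v, h⟩, ?_, ?_⟩
    · intro h
      exact hc1 ((key (D0.src ⟨x, hx⟩)).symm.trans (h.trans (key (D0.tgt ⟨x, hx⟩))))
    · rintro y ⟨hy, hyS⟩ hne
      exact (key (D0.src ⟨y, hy⟩)).trans
        ((hc2 _ hyS fun h => hne (congrArg Fin.val h)).trans (key (D0.tgt ⟨y, hy⟩)).symm)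
  · intro cl hcl
    have hc := List.all_eq_true.mp clauses_check cl hcl
    cases cl with
    | nil => simp at hc
    | cons t ts =>
      simp only [Bool.and_eq_true, decide_eq_true_eq] at hc
      obtain ⟨⟨ht, hlen⟩, hcl'⟩ := hc
      obtain ⟨_, hnd, hnb⟩ := nb_ok ⟨t.1, ht⟩
      have hlt : ∀ x ∈ t.1 :: (ed t.1).nb, x < 66 := by
        intro x hx
        rcases List.mem_cons.mp hx with rfl | hx
        · exact ht
        · exact (hnb x hx).1
      rw [hcl']
      constructor
      · intro t' ht'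
        obtain ⟨x, hx, rfl⟩ := List.mem_map.mp ht'
        have := arcOK_sound (arc_ok ⟨x, hlt x hx⟩)
        exact ⟨rfl, this.1, this.2.1⟩
      · by_contra hno
        have hout : ∀ x (hx : x ∈ t.1 :: (ed t.1).nb), (⟨x, hlt x hx⟩ : Fin 66) ∈ Sᶜ :=
          fun x hx h => hno ⟨tri x, List.mem_map_of_mem hx, hlt x hx, h⟩
        have h3 := h2 ⟨t.1, ht⟩ (hout _ (List.mem_cons_self ..))
        have hsub : ((ed t.1).nb.toFinset : Set ℕ) ⊆
            Fin.val '' {f | f ∈ Sᶜ ∧ D0.Crosses ⟨t.1, ht⟩ f} := by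
          intro x hx
          have hx' : x ∈ (ed t.1).nb := by simpa using hx
          exact ⟨⟨x, (hnb x hx').1⟩,
            ⟨hout x (List.mem_cons_of_mem _ hx'), (crosses_iff _ _).mpr hx'⟩, rfl⟩
        have h4 := ncard_le_ncard hsub (toFinite _)
        rw [ncard_image_of_injective _ Fin.val_injective, ncard_coe_finset,
          List.toFinset_card_of_nodup hnd, hlen] at h4
        omega

theorem result : ∃ (n m : ℕ) (D : Drawing (Fin n) (Fin m)), D.IsSimple ∧
    D.NoHomotopicParallel ∧ D.KPlane univ 3 ∧ 2 * m + 22 = 11 * n ∧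
    ¬ ∃ S : Set (Fin m), D.KPlane Sᶜ 2 ∧ D.IsForest S :=
  ⟨14, 66, D0, isSimple, noHomotopic, threePlane, rfl, noPartition⟩

end Pool.Agent.Results.MP_d99f1b_co.NoPartition
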